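import Mathlib

/-!
# Fixed point interval arithmetic, scale `2^64`, evaluated by the kernel
-/

set_option autoImplicit false

namespace Pool.Agent.H60.IV

/-- an interval `[lo / 2^64, hi / 2^64]` -/
structure I where
  lo : ℤ
  hi : ℤ

/-- `x` lies in the interval -/
def I.has (i : I) (x : ℝ) : Prop := (i.lo : ℝ) ≤ x * 2 ^ 64 ∧ x * 2 ^ 64 ≤ (i.hi : ℝ)

/-- floor division by `2^64` -/
def fl (a : ℤ) : ℤ := Int.shiftRight a 64

/-- ceiling division by `2^64` -/
def cl (a : ℤ) : ℤ := -(Int.shiftRight (-a) 64)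

theorem fl_le (a : ℤ) : ((fl a : ℤ) : ℝ) * 2 ^ 64 ≤ a := by
  have e : fl a = a / (2 : ℤ) ^ 64 := by
    have := Int.shiftRight_eq_div_pow a 64
    push_cast at this
    exact this
  rw [e]
  have h := Int.ediv_mul_le a (b := (2 : ℤ) ^ 64) (by norm_num)
  have h2 := (Int.cast_le (R := ℝ)).2 h
  rw [Int.cast_mul, Int.cast_pow] at h2
  simpa using h2

theorem le_cl (a : ℤ) : (a : ℝ) ≤ ((cl a : ℤ) : ℝ) * 2 ^ 64 := by
  have h := fl_le (-a)
  unfold cl
  unfold fl at h
  push_cast at h ⊢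
  linarith

def add (a b : I) : I := ⟨a.lo + b.lo, a.hi + b.hi⟩
def neg (a : I) : I := ⟨-a.hi, -a.lo⟩
def sub (a b : I) : I := ⟨a.lo - b.hi, a.hi - b.lo⟩

def mul (a b : I) : I :=
  ⟨fl (min (min (a.lo * b.lo) (a.lo * b.hi)) (min (a.hi * b.lo) (a.hi * b.hi))),
   cl (max (max (a.lo * b.lo) (a.lo * b.hi)) (max (a.hi * b.lo) (a.hi * b.hi)))⟩

/-- division by a positive natural number -/
def divn (a : I) (n : ℕ) : I := ⟨a.lo / n, -((-a.hi) / n)⟩

/-- multiplication by a natural number -/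
def muln (a : I) (n : ℕ) : I := ⟨a.lo * n, a.hi * n⟩

/-- integer constant -/
def ofZ (n : ℤ) : I := ⟨n * 18446744073709551616, n * 18446744073709551616⟩

/-- rational constant `p / q` -/
def ofQ (p : ℤ) (q : ℕ) : I := divn (ofZ p) q

/-- enlarge by `e / 2^64` -/
def pad (a : I) (e : ℤ) : I := ⟨a.lo - e, a.hi + e⟩

theorem has_add {a b : I} {x y : ℝ} (hx : a.has x) (hy : b.has y) : (add a b).has (x + y) := by
  obtain ⟨h1, h2⟩ := hx
  obtain ⟨h3, h4⟩ := hy
  constructor <;> simp only [add] <;> push_cast <;> linarith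

theorem has_neg {a : I} {x : ℝ} (hx : a.has x) : (neg a).has (-x) := by
  obtain ⟨h1, h2⟩ := hx
  constructor <;> simp only [neg] <;> push_cast <;> linarith

theorem has_sub {a b : I} {x y : ℝ} (hx : a.has x) (hy : b.has y) : (sub a b).has (x - y) := by
  obtain ⟨h1, h2⟩ := hx
  obtain ⟨h3, h4⟩ := hy
  constructor <;> simp only [sub] <;> push_cast <;> linarith

theorem mul_box {a b c d x y : ℝ} (h1 : a ≤ x) (h2 : x ≤ b) (h3 : c ≤ y) (h4 : y ≤ d) :
    min (min (a * c) (a * d)) (min (b * c) (b * d)) ≤ x * y ∧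
      x * y ≤ max (max (a * c) (a * d)) (max (b * c) (b * d)) := by
  have key1 : ∀ z : ℝ, min (z * c) (z * d) ≤ z * y ∧ z * y ≤ max (z * c) (z * d) := by
    intro z
    rcases le_total 0 z with hz | hz
    · exact ⟨(min_le_left _ _).trans (mul_le_mul_of_nonneg_left h3 hz),
        (mul_le_mul_of_nonneg_left h4 hz).trans (le_max_right _ _)⟩
    · exact ⟨(min_le_right _ _).trans (mul_le_mul_of_nonpos_left h4 hz),
        (mul_le_mul_of_nonpos_left h3 hz).trans (le_max_left _ _)⟩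
  have key2 : min (a * y) (b * y) ≤ x * y ∧ x * y ≤ max (a * y) (b * y) := by
    rcases le_total 0 y with hz | hz
    · exact ⟨(min_le_left _ _).trans (mul_le_mul_of_nonneg_right h1 hz),
        (mul_le_mul_of_nonneg_right h2 hz).trans (le_max_right _ _)⟩
    · exact ⟨(min_le_right _ _).trans (mul_le_mul_of_nonpos_right h2 hz),
        (mul_le_mul_of_nonpos_right h1 hz).trans (le_max_left _ _)⟩
  exact ⟨(min_le_min (key1 a).1 (key1 b).1).trans key2.1,
    key2.2.trans (max_le_max (key1 a).2 (key1 b).2)⟩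

theorem has_mul {a b : I} {x y : ℝ} (hx : a.has x) (hy : b.has y) : (mul a b).has (x * y) := by
  obtain ⟨h1, h2⟩ := hx
  obtain ⟨h3, h4⟩ := hy
  obtain ⟨h5, h6⟩ := mul_box h1 h2 h3 h4
  have e : x * 2 ^ 64 * (y * 2 ^ 64) = x * y * 2 ^ 64 * 2 ^ 64 := by ring
  rw [e] at h5 h6
  have hD : (0 : ℝ) < 2 ^ 64 := by positivity
  constructor
  · simp only [mul]
    have h := fl_le (min (min (a.lo * b.lo) (a.lo * b.hi)) (min (a.hi * b.lo) (a.hi * b.hi)))
    refine le_of_mul_le_mul_right (h.trans ?_) hD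
    push_cast
    exact h5
  · simp only [mul]
    have h := le_cl (max (max (a.lo * b.lo) (a.lo * b.hi)) (max (a.hi * b.lo) (a.hi * b.hi)))
    refine le_of_mul_le_mul_right (le_trans ?_ h) hD
    push_cast
    exact h6

theorem has_divn {a : I} {x : ℝ} (hx : a.has x) {n : ℕ} (hn : 0 < n) : (divn a n).has (x / n) := by
  obtain ⟨h1, h2⟩ := hx
  have hn' : (0 : ℝ) < n := by exact_mod_cast hn
  have hz : ∀ c : ℤ, ((c / (n : ℤ) : ℤ) : ℝ) * n ≤ c := by
    intro c
    have h := Int.ediv_mul_le c (b := (n : ℤ)) (by exact_mod_cast hn.ne')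
    exact_mod_cast h
  constructor
  · simp only [divn]
    have h := hz a.lo
    rw [div_mul_eq_mul_div, le_div_iff₀ hn']
    linarith
  · simp only [divn]
    have h := hz (-a.hi)
    rw [div_mul_eq_mul_div, div_le_iff₀ hn']
    push_cast at h ⊢
    linarith

theorem has_muln {a : I} {x : ℝ} (hx : a.has x) (n : ℕ) : (muln a n).has (x * n) := by
  obtain ⟨h1, h2⟩ := hx
  have hn' : (0 : ℝ) ≤ n := Nat.cast_nonneg n
  constructor <;> simp only [muln] <;> push_cast <;> nlinarith

theorem has_ofZ (n : ℤ) : (ofZ n).has n := by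
  constructor <;> simp only [ofZ] <;> push_cast <;> norm_num

theorem has_ofQ (p : ℤ) {q : ℕ} (hq : 0 < q) : (ofQ p q).has ((p : ℝ) / q) :=
  has_divn (has_ofZ p) hq

theorem has_pad {a : I} {x y : ℝ} (hx : a.has x) {e : ℤ} (h : |y - x| * 2 ^ 64 ≤ e) :
    (pad a e).has y := by
  obtain ⟨h1, h2⟩ := hx
  have h3 := abs_le.1 (le_refl |y - x|)
  have hD : (0 : ℝ) < 2 ^ 64 := by positivity
  constructor <;> simp only [pad] <;> push_cast <;> nlinarith

theorem has_mono {a b : I} {x : ℝ} (hx : a.has x) (h1 : b.lo ≤ a.lo) (h2 : a.hi ≤ b.hi) : b.has x := by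
  obtain ⟨h3, h4⟩ := hx
  have h1' : (b.lo : ℝ) ≤ a.lo := by exact_mod_cast h1
  have h2' : (a.hi : ℝ) ≤ b.hi := by exact_mod_cast h2
  exact ⟨h1'.trans h3, h4.trans h2'⟩

/-- comparison -/
theorem lt_of_has {a b : I} {x y : ℝ} (hx : a.has x) (hy : b.has y) (h : a.hi < b.lo) : x < y := by
  have h' : (a.hi : ℝ) < b.lo := by exact_mod_cast h
  have hD : (0 : ℝ) < 2 ^ 64 := by positivity
  have := (hx.2.trans_lt h').trans_le hy.1
  exact lt_of_mul_lt_mul_right this hD.le

theorem le_of_has {a b : I} {x y : ℝ} (hx : a.has x) (hy : b.has y) (h : a.hi ≤ b.lo) : x ≤ y := by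
  have h' : (a.hi : ℝ) ≤ b.lo := by exact_mod_cast h
  have hD : (0 : ℝ) < 2 ^ 64 := by positivity
  have := (hx.2.trans h').trans hy.1
  exact le_of_mul_le_mul_right this hD

theorem pos_of_has {a : I} {x : ℝ} (hx : a.has x) (h : 0 < a.lo) : 0 < x := by
  have h' : (0 : ℝ) < a.lo := by exact_mod_cast h
  have hD : (0 : ℝ) < 2 ^ 64 := by positivity
  have := h'.trans_le hx.1
  exact (mul_pos_iff_of_pos_right hD).1 this

/-! ## exp -/

/-- Horner form of `∑_{m<n} y^m/m!` shifted: `E n k = 1 + y/(k+1) (1 + y/(k+2) (...))`, `n` levels -/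
noncomputable def hornerR (y : ℝ) : ℕ → ℕ → ℝ
  | 0, _ => 1
  | n + 1, k => 1 + y * hornerR y n (k + 1) / ((k + 1 : ℕ) : ℝ)

def hornerI (y : I) : ℕ → ℕ → I
  | 0, _ => ofZ 1
  | n + 1, k => add (ofZ 1) (divn (mul y (hornerI y n (k + 1))) (k + 1))

theorem has_horner {yi : I} {y : ℝ} (hy : yi.has y) (n k : ℕ) :
    (hornerI yi n k).has (hornerR y n k) := by
  induction n generalizing k with
  | zero =>
    simp only [hornerI, hornerR]
    simpa using has_ofZ 1
  | succ n ih =>
    simp only [hornerI, hornerR]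
    have h1 := has_divn (has_mul hy (ih (k + 1))) (Nat.succ_pos k)
    have h2 : (ofZ 1).has 1 := by simpa using has_ofZ 1
    exact has_add h2 h1

theorem hornerR_eq (y : ℝ) (n k : ℕ) :
    hornerR y n k = ∑ m ∈ Finset.range (n + 1), y ^ m * (k.factorial : ℝ) / ((k + m).factorial : ℝ) := by
  induction n generalizing k with
  | zero =>
    simp only [hornerR, zero_add, Finset.sum_range_one, pow_zero, one_mul, add_zero]
    rw [div_self (by positivity)]
  | succ n ih =>
    simp only [hornerR]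
    rw [ih (k + 1), Finset.sum_range_succ' _ (n + 1)]
    simp only [pow_zero, one_mul, add_zero]
    rw [div_self (by positivity : (k.factorial : ℝ) ≠ 0), add_comm (1 : ℝ), Finset.mul_sum,
      Finset.sum_div]
    congr 1
    apply Finset.sum_congr rfl
    intro m _
    have e : k + (m + 1) = k + 1 + m := by ring
    rw [e, Nat.factorial_succ k]
    push_cast
    field_simp
    ring

theorem hornerR_exp (y : ℝ) (n : ℕ) :
    hornerR y n 0 = ∑ m ∈ Finset.range (n + 1), y ^ m / (m.factorial : ℝ) := by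
  rw [hornerR_eq]
  apply Finset.sum_congr rfl
  intro m _
  simp

/-- enclosure of `exp y` for `|y| ≤ 1/2`, argument an interval -/
def expSmall (y : I) : I := pad (hornerI y 17 0) 4

theorem has_expSmall {yi : I} {y : ℝ} (hy : yi.has y) (h : |y| ≤ 1 / 2) : (expSmall yi).has (Real.exp y) := by
  apply has_pad (has_horner hy 17 0)
  rw [hornerR_exp]
  have h1 := Real.exp_bound (x := y) (by linarith) (n := 18) (by norm_num)
  have h2 : |y| ^ 18 ≤ (1 / 2) ^ 18 := pow_le_pow_left₀ (abs_nonneg _) h 18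
  have h3 : (0 : ℝ) ≤ (Nat.succ 18 : ℝ) / ((Nat.factorial 18 : ℝ) * (18 : ℕ)) := by positivity
  have h4 := h1.trans (mul_le_mul_of_nonneg_right h2 h3)
  refine (mul_le_mul_of_nonneg_right h4 (by positivity)).trans ?_
  rw [show Nat.factorial 18 = 6402373705728000 by decide]
  norm_num

/-- repeated squaring -/
def sqn (a : I) : ℕ → I
  | 0 => a
  | n + 1 => let b := sqn a n; mul b b

theorem has_sqn {a : I} {x : ℝ} (hx : a.has x) (n : ℕ) : (sqn a n).has (x ^ (2 ^ n)) := by
  induction n with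
  | zero => simpa [sqn] using hx
  | succ n ih =>
    simp only [sqn]
    have := has_mul ih ih
    rw [pow_succ, pow_mul, sq]
    exact this

/-- enclosure of `exp (a / 2^64)` for `|a| ≤ 32 · 2^64` -/
def expPt (a : ℤ) : I := sqn (expSmall (divn ⟨a, a⟩ 64)) 6

theorem has_expPt {a : ℤ} (h1 : -(32 * 18446744073709551616) ≤ a) (h2 : a ≤ 32 * 18446744073709551616) :
    (expPt a).has (Real.exp ((a : ℝ) / 2 ^ 64)) := by
  have hi : (⟨a, a⟩ : I).has ((a : ℝ) / 2 ^ 64) := by
    constructor <;> simp only <;> rw [div_mul_cancel₀ _ (by positivity)]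
  have h1' : -(32 * 18446744073709551616) ≤ (a : ℝ) := by exact_mod_cast h1
  have h2' : (a : ℝ) ≤ 32 * 18446744073709551616 := by exact_mod_cast h2
  have h3 := has_divn hi (n := 64) (by norm_num)
  have h4 : |(a : ℝ) / 2 ^ 64 / (64 : ℕ)| ≤ 1 / 2 := by
    rw [abs_le]
    constructor
    · rw [le_div_iff₀ (by norm_num), le_div_iff₀ (by norm_num)]
      norm_num
      linarith
    · rw [div_le_iff₀ (by norm_num), div_le_iff₀ (by norm_num)]
      norm_num
      linarith
  have h5 := has_sqn (has_expSmall h3 h4) 6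
  have e : Real.exp ((a : ℝ) / 2 ^ 64 / (64 : ℕ)) ^ (2 ^ 6) = Real.exp ((a : ℝ) / 2 ^ 64) := by
    rw [← Real.exp_nat_mul]
    congr 1
    norm_num
    ring
  rw [e] at h5
  exact h5

/-- enclosure of `exp` on an interval -/
def exp (x : I) : I := ⟨(expPt x.lo).lo, (expPt x.hi).hi⟩

theorem has_exp {xi : I} {x : ℝ} (hx : xi.has x) (h1 : -(32 * 18446744073709551616) ≤ xi.lo)
    (h2 : xi.hi ≤ 32 * 18446744073709551616) : (exp xi).has (Real.exp x) := by
  have hD : (0 : ℝ) < 2 ^ 64 := by positivity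
  have hle : xi.lo ≤ xi.hi := by
    have := hx.1.trans hx.2
    exact_mod_cast this
  have ha := has_expPt h1 (hle.trans h2)
  have hb := has_expPt (h1.trans hle) h2
  have h3 : Real.exp ((xi.lo : ℝ) / 2 ^ 64) ≤ Real.exp x := by
    rw [Real.exp_le_exp, div_le_iff₀ hD]
    exact hx.1
  have h4 : Real.exp x ≤ Real.exp ((xi.hi : ℝ) / 2 ^ 64) := by
    rw [Real.exp_le_exp, le_div_iff₀ hD]
    exact hx.2
  constructor
  · exact ha.1.trans (mul_le_mul_of_nonneg_right h3 hD.le)
  · exact (mul_le_mul_of_nonneg_right h4 hD.le).trans hb.2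

end Pool.Agent.H60.IV
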